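import Pool.Agent.Helper31_LLG.RllD

/-!
# LLG, module RLL: the local lemma of one round
-/

set_option autoImplicit false

namespace Pool.Agent.LLG.H31

open SimpleGraph Pool.Agent.LAG Pool.Agent.LLG

section lemmas

variable {V : Type} [Fintype V]

/-- coordinates of a pair event -/
def WC [DecidableEq V] (u v : V) : Finset ((V × V) ⊕ V) := {Sum.inr u, Sum.inr v}

lemma card_WC [DecidableEq V] {u v : V} (h : u ≠ v) : (WC u v).card = 2 := by
  unfold WC
  exact Finset.card_pair (fun h' => h (Sum.inr_injective h'))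

lemma sum_WC [DecidableEq V] {u v : V} (h : u ≠ v) (x y : ℝ) :
    ∑ w ∈ WC u v, tau x y w = 2 * y := by
  unfold WC
  rw [Finset.sum_pair (fun h' => h (Sum.inr_injective h'))]
  simp only [tau, Sum.elim_inr]
  ring

lemma sum_map_inl (E : Finset (V × V)) (x y : ℝ) :
    ∑ w ∈ E.map Function.Embedding.inl, tau (V := V) x y w = E.card * x := by
  rw [Finset.sum_map]
  simp [tau]

lemma prob_E [DecidableEq V] {σ T b : ℕ} (hσ : 1 ≤ σ) (hT : 1 ≤ T) (hb : 1 ≤ b)
    (E : Finset (V × V)) (hE : 1 ≤ E.card) :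
    (({ω : (V × V) ⊕ V → Fin (σ * T) × Fin b | ∃ t : Fin T,
      ∀ v ∈ E.map Function.Embedding.inl, ω v ∈
        Finset.univ.filter fun a : Fin (σ * T) × Fin b => a.1.val / σ = t.val}.ncard : ℕ) : ℝ) ≤
      (1 / (T : ℝ)) ^ (E.card - 1) *
        (Fintype.card ((V × V) ⊕ V → Fin (σ * T) × Fin b) : ℝ) := by
  haveI : Nonempty (Fin (σ * T) × Fin b) := ⟨(⟨0, Nat.mul_pos hσ hT⟩, ⟨0, hb⟩)⟩
  have hT' : (1 : ℝ) ≤ T := by exact_mod_cast hT
  set M : ℝ := (Fintype.card ((V × V) ⊕ V → Fin (σ * T) × Fin b) : ℝ) with hM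
  have h1 : {ω : (V × V) ⊕ V → Fin (σ * T) × Fin b | ∃ t : Fin T,
      ∀ v ∈ E.map Function.Embedding.inl, ω v ∈
        Finset.univ.filter fun a : Fin (σ * T) × Fin b => a.1.val / σ = t.val} =
      ⋃ t : Fin T, {ω | ∀ v ∈ E.map Function.Embedding.inl, ω v ∈
        Finset.univ.filter fun a : Fin (σ * T) × Fin b => a.1.val / σ = t.val} := by
    ext ω
    simp only [Set.mem_setOf_eq, Set.mem_iUnion]
  have h2 : ∀ t : Fin T, (({ω : (V × V) ⊕ V → Fin (σ * T) × Fin b |
      ∀ v ∈ E.map Function.Embedding.inl, ω v ∈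
        Finset.univ.filter fun a : Fin (σ * T) × Fin b => a.1.val / σ = t.val}.ncard : ℕ) : ℝ) ≤
      (1 / (T : ℝ)) ^ E.card * M := by
    intro t
    have h3 := cyl_pow (E.map Function.Embedding.inl : Finset ((V × V) ⊕ V))
      (fun _ => Finset.univ.filter fun a : Fin (σ * T) × Fin b => a.1.val / σ = t.val)
      (1 / (T : ℝ)) (fun v _ => ratio_host hσ hT hb t.val)
    rw [Finset.card_map] at h3
    exact h3
  have h4 : ((⋃ t : Fin T, {ω : (V × V) ⊕ V → Fin (σ * T) × Fin b |
      ∀ v ∈ E.map Function.Embedding.inl, ω v ∈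
        Finset.univ.filter fun a : Fin (σ * T) × Fin b => a.1.val / σ = t.val}).ncard : ℝ) ≤
      ∑ t : Fin T, (({ω : (V × V) ⊕ V → Fin (σ * T) × Fin b |
      ∀ v ∈ E.map Function.Embedding.inl, ω v ∈
        Finset.univ.filter fun a : Fin (σ * T) × Fin b => a.1.val / σ = t.val}.ncard : ℕ) : ℝ) := by
    have h5 := Set.ncard_iUnion_le_of_fintype (fun t : Fin T =>
      {ω : (V × V) ⊕ V → Fin (σ * T) × Fin b |
      ∀ v ∈ E.map Function.Embedding.inl, ω v ∈
        Finset.univ.filter fun a : Fin (σ * T) × Fin b => a.1.val / σ = t.val})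
    exact_mod_cast h5
  rw [h1]
  refine h4.trans ?_
  refine (Finset.sum_le_sum fun t _ => h2 t).trans ?_
  rw [Finset.sum_const, Finset.card_univ, Fintype.card_fin, nsmul_eq_mul, ← mul_assoc]
  refine mul_le_mul_of_nonneg_right ?_ (Nat.cast_nonneg _)
  obtain ⟨n, hn⟩ : ∃ n, E.card = n + 1 := ⟨E.card - 1, by omega⟩
  rw [hn, pow_succ, Nat.add_sub_cancel]
  have : (T : ℝ) * ((1 / (T : ℝ)) ^ n * (1 / T)) = (1 / (T : ℝ)) ^ n := by
    field_simp
  rw [this]

lemma prob_C [DecidableEq V] {c b : ℕ} (hc : 1 ≤ c) (hb : 1 ≤ b) {u v : V} (h : u ≠ v) :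
    (({ω : (V × V) ⊕ V → Fin c × Fin b | ∀ w ∈ WC u v, ω w ∈
        Finset.univ.filter fun a : Fin c × Fin b => a.2.val < 2 * c}.ncard : ℕ) : ℝ) ≤
      (2 * c / b) ^ 2 * (Fintype.card ((V × V) ⊕ V → Fin c × Fin b) : ℝ) := by
  haveI : Nonempty (Fin c × Fin b) := ⟨(⟨0, hc⟩, ⟨0, hb⟩)⟩
  have h3 := cyl_pow (WC u v)
      (fun _ => Finset.univ.filter fun a : Fin c × Fin b => a.2.val < 2 * c)
      (2 * c / b : ℝ) (fun v _ => ratio_lt hc hb)
  rw [card_WC h] at h3
  exact h3

end lemmas

/-- RLL -/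
theorem rll (hCount : CountStmt) (hLl : LllwStmt) : RllStmt := by
  classical
  intro V _ O k σ T b m s q n1 lm η al cf J _ ev hσ hreg hsp hzone hcfs hcfn hev heta hnum
  obtain ⟨hk, hT, hm, hb, hη, hn1, hn2, hn3, hn4, hn5, hn6, hn7, hn8⟩ := hnum
  have hc1 : 1 ≤ σ * T := Nat.mul_pos hσ (by omega)
  have hcb : 2 * (σ * T) ≤ b := by omega
  have hT1 : 1 ≤ T := by omega
  generalize hcd : σ * T = c at *
  have hcR : (1 : ℝ) ≤ c := by exact_mod_cast hc1
  have hbR : (1 : ℝ) ≤ b := by exact_mod_cast hb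
  have hTR : (4 : ℝ) ≤ T := by exact_mod_cast hT
  have h4cb : 4 * (c : ℝ) ≤ b := by exact_mod_cast hn8
  haveI : Nonempty (Fin c × Fin b) := ⟨(⟨0, hc1⟩, ⟨0, hb⟩)⟩
  set X : ℝ := Real.exp (-(k / (8 * c) : ℝ)) with hX
  have hX0 : 0 < X := Real.exp_pos _
  set τ1 : ℝ := 4 * c * X + 4 * η with hτ1
  set τ2 : ℝ := 4 * c * X + 32 * n1 * (c : ℝ) ^ 2 / (b : ℝ) ^ 2 with hτ2
  set cb : ℝ := 8 * (c : ℝ) ^ 2 / (b : ℝ) ^ 2 with hcbd
  have hcb0 : 0 ≤ cb := by positivity
  have hcb2 : cb ≤ 1 / 2 := by
    rw [hcbd, div_le_div_iff₀ (by positivity) (by norm_num)]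
    nlinarith
  have hcb4 : (2 * c / b : ℝ) ^ 2 = cb / 2 := by
    rw [hcbd]
    field_simp
    norm_num
  let C := {p : V × V // p.1 ≠ p.2 ∧ cf p.1 p.2}
  let B : HIdx O c ⊕ (J ⊕ C) → Set ((V × V) ⊕ V → Fin c × Fin b) :=
    Sum.elim (fun t => {ω | ∀ v ∈ WH O al t.1.1.2 t.1.2.1 t.1.2.2,
        ω v ∈ FH hcb t.1.1.1 t.1.1.2 v})
      (Sum.elim (fun j => {ω | ∃ t : Fin T, ∀ v ∈ (ev j).map Function.Embedding.inl, ω v ∈
          Finset.univ.filter fun a : Fin c × Fin b => a.1.val / σ = t.val})
        (fun p => {ω | ∀ v ∈ WC p.1.1 p.1.2, ω v ∈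
          Finset.univ.filter fun a : Fin c × Fin b => a.2.val < 2 * c}))
  let W : HIdx O c ⊕ (J ⊕ C) → Finset ((V × V) ⊕ V) :=
    Sum.elim (fun t => WH O al t.1.1.2 t.1.2.1 t.1.2.2)
      (Sum.elim (fun j => (ev j).map Function.Embedding.inl) (fun p => WC p.1.1 p.1.2))
  let x : HIdx O c ⊕ (J ⊕ C) → ℝ :=
    Sum.elim (fun t => xH O c b t.1.1.2 t.1.2.1 t.1.2.2)
      (Sum.elim (fun j => 2 * (1 / (T : ℝ)) ^ ((ev j).card - 1)) (fun _ => cb))
  have hxE : ∀ j, 0 ≤ 2 * (1 / (T : ℝ)) ^ ((ev j).card - 1) ∧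
      2 * (1 / (T : ℝ)) ^ ((ev j).card - 1) ≤ 1 / 2 := by
    intro j
    refine ⟨by positivity, ?_⟩
    have h1 : (1 / (T : ℝ)) ^ ((ev j).card - 1) ≤ (1 / (T : ℝ)) ^ 1 := by
      apply pow_le_pow_of_le_one (by positivity)
      · rw [div_le_one (by linarith)]; linarith
      · have := (hev j).2.2
        omega
    rw [pow_one] at h1
    have h2 : 1 / (T : ℝ) ≤ 1 / 4 := one_div_le_one_div_of_le (by norm_num) hTR
    linarith
  have main := hLl ((V × V) ⊕ V) (Fin c × Fin b) (HIdx O c ⊕ (J ⊕ C)) B W x (tau τ1 τ2) ?_ ?_ ?_ ?_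
  · -- conclusion
    obtain ⟨ω, hω⟩ := main
    let lab : V → Option (Fin c × Bool) := fun v => if v ∈ al then dec c (ω (Sum.inr v)).2 else none
    let E : Fin c → V × V → Prop := fun i e => O e.1 e.2 ∧ (ω (Sum.inl e)).1 = i
    have hHall : ∀ (i : Fin c) (sd : Bool) (A : Finset V), (∀ x ∈ A, lab x ≠ some (i, sd)) →
        A.card ≤ (NN (E i) sd A).card := by
      intro i sd A hA
      by_contra hcon
      push Not at hcon
      obtain ⟨A', S', hA', hcard, hno, hconn⟩ := violator O (E i) (fun e he => he.1) sd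
        (fun x => lab x ≠ some (i, sd)) ⟨A, hA, hcon⟩
      refine hω (Sum.inl ⟨((i, sd), (A', S')), hcard, hconn⟩) ?_
      rintro (e | v) hv
      · simp only [WH, Finset.inl_mem_disjSum, E1, Finset.mem_filter, Finset.mem_univ,
          true_and] at hv
        simp only [FH, Sum.elim_inl, Finset.mem_filter, Finset.mem_univ, true_and]
        intro h
        refine hno (tl sd e) hv.1 (hd sd e) hv.2.1 ?_
        rw [mk_tl_hd]
        exact ⟨hv.2.2, h⟩
      · simp only [WH, Finset.inr_mem_disjSum, Finset.mem_filter] at hv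
        simp only [FH, Sum.elim_inr, Finset.mem_filter, Finset.mem_univ, true_and]
        intro h
        refine hA' v hv.1 ?_
        simp only [lab, if_pos hv.2]
        exact (dec_eq hcb _ _ _).2 h
    refine ⟨fun u v => (ω (Sum.inl (u, v))).1, lab, ?_, ?_, ?_, ?_, ?_⟩
    · intro v hv
      by_contra hcon
      exact hv (by simp only [lab, if_neg hcon])
    · intro u v huv hcf
      by_contra hcon
      push Not at hcon
      have h1 : ∀ w, lab w ≠ none → (ω (Sum.inr w)).2.val < 2 * c := by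
        intro w hw
        by_contra hw2
        apply hw
        simp only [lab]
        split_ifs
        · exact (dec_none _).2 hw2
        · rfl
      refine hω (Sum.inr (Sum.inr ⟨(u, v), huv, hcf⟩)) ?_
      intro w hw
      simp only [WC, Finset.mem_insert, Finset.mem_singleton] at hw
      rw [Finset.mem_filter]
      refine ⟨Finset.mem_univ _, ?_⟩
      rcases hw with rfl | rfl
      · exact h1 u hcon.1
      · exact h1 v hcon.2
    · rintro j ⟨t, ht⟩
      obtain ⟨e, he⟩ : (ev j).Nonempty := by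
        rw [← Finset.card_pos]
        have := (hev j).2.2
        omega
      have htT : t < T := by
        rw [← ht e he]
        apply Nat.div_lt_of_lt_mul
        rw [hcd]
        exact (ω (Sum.inl (e.1, e.2))).1.2
      refine hω (Sum.inr (Sum.inl j)) ⟨⟨t, htT⟩, ?_⟩
      intro w hw
      rw [Finset.mem_map] at hw
      obtain ⟨e', he', rfl⟩ := hw
      rw [Finset.mem_filter]
      exact ⟨Finset.mem_univ _, ht e' he'⟩
    · intro i A hA
      have h1 := hHall i true A.toFinset (fun x hx => hA x (by simpa using hx))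
      rw [← Set.ncard_eq_toFinset_card'] at h1
      refine h1.trans (le_of_eq ?_)
      rw [← Set.ncard_coe_finset]
      congr 1
      ext y
      rw [Finset.mem_coe, mem_NN]
      simp only [Set.mem_toFinset, mk, if_true, Set.mem_setOf_eq, E]
    · intro i A hA
      have h1 := hHall i false A.toFinset (fun x hx => hA x (by simpa using hx))
      rw [← Set.ncard_eq_toFinset_card'] at h1
      refine h1.trans (le_of_eq ?_)
      rw [← Set.ncard_coe_finset]
      congr 1
      ext y
      rw [Finset.mem_coe, mem_NN]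
      simp only [Set.mem_toFinset, mk, Bool.false_eq_true, if_false, Set.mem_setOf_eq, E]
  · -- dependence
    rintro (t | j | p) ω ω' h hB
    · intro v hv
      rw [← h v hv]
      exact hB v hv
    · obtain ⟨t, ht⟩ := hB
      refine ⟨t, fun v hv => ?_⟩
      rw [← h v hv]
      exact ht v hv
    · intro v hv
      rw [← h v hv]
      exact hB v hv
  · -- bounds
    rintro (t | j | p)
    · exact ⟨(Real.exp_pos _).le, xH_le_half hc1 hb hk hn1 hreg _ _ _ t.2.1⟩
    · exact hxE j
    · exact ⟨hcb0, hcb2⟩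
  · -- sums
    intro v J' hJ'
    rw [← J'.toLeft_disjSum_toRight, Finset.sum_disjSum,
      ← J'.toRight.toLeft_disjSum_toRight, Finset.sum_disjSum]
    have hH : ∑ t ∈ J'.toLeft, x (Sum.inl t) ≤ 2 * c * X := by
      have hW : ∀ t ∈ J'.toLeft, v ∈ WH O al t.1.1.2 t.1.2.1 t.1.2.2 := by
        intro t ht
        rw [Finset.mem_toLeft] at ht
        exact hJ' _ ht
      rcases v with e | w
      · refine hall_sum hCount hk hc1 hb hm hn1 hn2 hreg hsp (fun sd => ct sd (tl sd e)) _ ?_
        intro t ht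
        have h1 := hW t ht
        simp only [WH, Finset.inl_mem_disjSum, E1, Finset.mem_filter, Finset.mem_univ,
          true_and] at h1
        exact (mem_UU_ct _ _ _ _).2 h1.1
      · refine hall_sum hCount hk hc1 hb hm hn1 hn2 hreg hsp (fun sd => ct sd w) _ ?_
        intro t ht
        have h1 := hW t ht
        simp only [WH, Finset.inr_mem_disjSum, Finset.mem_filter] at h1
        exact (mem_UU_ct _ _ _ _).2 h1.1
    have hE : ∀ e, v = Sum.inl e →
        ∑ j ∈ J'.toRight.toLeft, x (Sum.inr (Sum.inl j)) ≤ 2 * η := by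
      intro e he
      have h1 := heta e J'.toRight.toLeft (fun j hj => by
        rw [Finset.mem_toLeft, Finset.mem_toRight] at hj
        have h2 := hJ' _ hj
        rw [he] at h2
        simp only [W, Sum.elim_inr, Sum.elim_inl] at h2
        rw [Finset.mem_map] at h2
        obtain ⟨e', he', h3⟩ := h2
        rwa [← Sum.inl_injective h3])
      simp only [x, Sum.elim_inr, Sum.elim_inl]
      rw [← Finset.mul_sum]
      linarith
    have hE' : ∀ w, v = Sum.inr w →
        ∑ j ∈ J'.toRight.toLeft, x (Sum.inr (Sum.inl j)) = 0 := by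
      intro w hw
      have : J'.toRight.toLeft = ∅ := by
        rw [Finset.eq_empty_iff_forall_notMem]
        intro j hj
        rw [Finset.mem_toLeft, Finset.mem_toRight] at hj
        have h2 := hJ' _ hj
        rw [hw] at h2
        simp only [W, Sum.elim_inr, Sum.elim_inl] at h2
        rw [Finset.mem_map] at h2
        obtain ⟨e', he', h3⟩ := h2
        exact absurd h3 (by simp)
      rw [this, Finset.sum_empty]
    have hC' : ∀ e, v = Sum.inl e →
        ∑ p ∈ J'.toRight.toRight, x (Sum.inr (Sum.inr p)) = 0 := by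
      intro e he
      have : J'.toRight.toRight = ∅ := by
        rw [Finset.eq_empty_iff_forall_notMem]
        intro p hp
        rw [Finset.mem_toRight, Finset.mem_toRight] at hp
        have h2 := hJ' _ hp
        rw [he] at h2
        simp [W, WC] at h2
      rw [this, Finset.sum_empty]
    have hC : ∀ w, v = Sum.inr w →
        ∑ p ∈ J'.toRight.toRight, x (Sum.inr (Sum.inr p)) ≤ 2 * n1 * cb := by
      intro w hw
      have h1 : J'.toRight.toRight.card ≤ 2 * n1 := by
        have h2 : (J'.toRight.toRight.map (Function.Embedding.subtype _)) ⊆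
            (({y | cf y w}.toFinset.image fun y => (w, y)) ∪
              ({y | cf y w}.toFinset.image fun y => (y, w)) : Finset (V × V)) := by
          intro p hp
          rw [Finset.mem_map] at hp
          obtain ⟨p', hp', rfl⟩ := hp
          rw [Finset.mem_toRight, Finset.mem_toRight] at hp'
          have h3 := hJ' _ hp'
          rw [hw] at h3
          simp only [W, Sum.elim_inr, WC, Finset.mem_insert, Finset.mem_singleton] at h3
          rw [Finset.mem_union, Finset.mem_image, Finset.mem_image]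
          rcases h3 with h3 | h3
          · left
            refine ⟨p'.1.2, ?_, ?_⟩
            · rw [Set.mem_toFinset, Set.mem_setOf_eq, Sum.inr_injective h3]
              exact hcfs _ _ p'.2.2
            · rw [Sum.inr_injective h3]
              rfl
          · right
            refine ⟨p'.1.1, ?_, ?_⟩
            · rw [Set.mem_toFinset, Set.mem_setOf_eq, Sum.inr_injective h3]
              exact p'.2.2
            · rw [Sum.inr_injective h3]
              rfl
        have h3 := Finset.card_le_card h2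
        rw [Finset.card_map] at h3
        have h4 : ({y | cf y w}.toFinset : Finset V).card ≤ n1 := by
          rw [← Set.ncard_eq_toFinset_card']
          exact hcfn w
        refine h3.trans ((Finset.card_union_le _ _).trans ?_)
        have h5 := Finset.card_image_le (s := ({y | cf y w}.toFinset : Finset V))
          (f := fun y => (w, y))
        have h6 := Finset.card_image_le (s := ({y | cf y w}.toFinset : Finset V))
          (f := fun y => (y, w))
        omega
      simp only [x, Sum.elim_inr]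
      rw [Finset.sum_const, nsmul_eq_mul]
      refine mul_le_mul_of_nonneg_right ?_ hcb0
      exact_mod_cast h1
    rcases v with e | w
    · have h1 := hE e rfl
      have h2 := hC' e rfl
      rw [h2]
      simp only [tau, Sum.elim_inl]
      rw [hτ1]
      linarith
    · have h1 := hE' w rfl
      have h2 := hC w rfl
      rw [h1]
      simp only [tau, Sum.elim_inr]
      have h3 : 32 * n1 * (c : ℝ) ^ 2 / (b : ℝ) ^ 2 = 2 * (2 * n1 * cb) := by
        rw [hcbd]
        ring
      rw [hτ2, h3]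
      linarith
  · -- probabilities
    rintro (t | j | p)
    · exact hall_prob (by omega) hc1 hb hcb hn6 hn7 hn3 hn5 hreg hzone _ _ _ _ t.2.1
    · have h1 : (((B (Sum.inr (Sum.inl j))).ncard : ℕ) : ℝ) ≤ (1 / (T : ℝ)) ^ ((ev j).card - 1) *
          (Fintype.card ((V × V) ⊕ V → Fin c × Fin b) : ℝ) := by
        subst hcd
        exact prob_E hσ hT1 hb (ev j) (by have := (hev j).2.2; omega)
      refine h1.trans (mul_le_mul_of_nonneg_right ?_ (Nat.cast_nonneg _))
      have h2 : ∑ v ∈ W (Sum.inr (Sum.inl j)), tau τ1 τ2 v ≤ 1 / 2 := by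
        have h3 : ∑ v ∈ W (Sum.inr (Sum.inl j)), tau τ1 τ2 v = (ev j).card * τ1 := by
          simp only [W, Sum.elim_inr, Sum.elim_inl]
          exact sum_map_inl _ _ _
        rw [h3]
        have h4 : ((ev j).card : ℝ) ≤ lm := by exact_mod_cast (hev j).2.1
        have h5 : 0 ≤ τ1 := by positivity
        nlinarith
      have h6 : Real.exp (-(1 / 2)) ≤ Real.exp (-∑ v ∈ W (Sum.inr (Sum.inl j)), tau τ1 τ2 v) :=
        Real.exp_le_exp.2 (by linarith)
      have h7 := half_le_exp
      simp only [x, Sum.elim_inr, Sum.elim_inl]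
      have h8 : (0 : ℝ) ≤ (1 / (T : ℝ)) ^ ((ev j).card - 1) := by positivity
      nlinarith
    · have h1 := prob_C (c := c) (b := b) hc1 hb p.2.1
      refine h1.trans (mul_le_mul_of_nonneg_right ?_ (Nat.cast_nonneg _))
      have h2 : ∑ v ∈ W (Sum.inr (Sum.inr p)), tau τ1 τ2 v ≤ 1 / 2 := by
        have h3 : ∑ v ∈ W (Sum.inr (Sum.inr p)), tau τ1 τ2 v = 2 * τ2 := by
          simp only [W, Sum.elim_inr]
          exact sum_WC p.2.1 _ _
        rw [h3]
        have h4 : 1 / (4 * (b : ℝ)) ≤ 1 / 4 := by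
          apply one_div_le_one_div_of_le (by norm_num)
          linarith
        linarith
      have h6 : Real.exp (-(1 / 2)) ≤ Real.exp (-∑ v ∈ W (Sum.inr (Sum.inr p)), tau τ1 τ2 v) :=
        Real.exp_le_exp.2 (by linarith)
      have h7 := half_le_exp
      simp only [x, Sum.elim_inr]
      rw [hcb4]
      nlinarith

end Pool.Agent.LLG.H31
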