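import Pool.Agent.Helper31_LLG.RllC

/-!
# LLG, module RLL, part D: Hall events, probabilities and sums
-/

set_option autoImplicit false

namespace Pool.Agent.LLG.H31

open SimpleGraph Pool.Agent.LAG Pool.Agent.LLG

section main

variable {V : Type} [Fintype V]

/-- indices of the Hall events: colour, side, set of tails, set of heads -/
abbrev HIdx (O : V → V → Prop) (c : ℕ) : Type :=
  {t : (Fin c × Bool) × (Finset V × Finset V) // t.2.2.card < t.2.1.card ∧
    ((dbl O).induce (UU t.1.2 t.2.1 t.2.2 : Set (V ⊕ V))).Connected}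

/-- coordinates of a Hall event -/
noncomputable def WH (O : V → V → Prop) (al : Set V) (s : Bool) (A S : Finset V) :
    Finset ((V × V) ⊕ V) :=
  open Classical in (E1 O s A S).disjSum (A.filter fun x => x ∈ al)

/-- allowed values in a Hall event -/
def FH {c b : ℕ} (h : 2 * c ≤ b) (i : Fin c) (s : Bool) : (V × V) ⊕ V → Finset (Fin c × Fin b) :=
  Sum.elim (fun _ => Finset.univ.filter fun a => a.1 ≠ i)
    (fun _ => Finset.univ.filter fun a => a.2 ≠ code h i s)

/-- the weights of the coordinates -/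
def tau (τ1 τ2 : ℝ) : (V × V) ⊕ V → ℝ := Sum.elim (fun _ => τ1) (fun _ => τ2)

lemma sum_WH (O : V → V → Prop) (al : Set V) (s : Bool) (A S : Finset V) (x y : ℝ)
    [DecidablePred fun v => v ∈ al] :
    ∑ v ∈ WH O al s A S, tau x y v =
      (E1 O s A S).card * x + (A.filter fun x => x ∈ al).card * y := by
  unfold WH
  rw [Finset.sum_disjSum]
  simp only [tau, Sum.elim_inl, Sum.elim_inr, Finset.sum_const, nsmul_eq_mul]
  congr!

lemma zone_num {O : V → V → Prop} {al : Set V} {k q : ℕ}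
    (hreg : ∀ v, {w | O v w}.ncard = k ∧ {w | O w v}.ncard = k)
    (hzone : ∀ U : Set (V ⊕ V), k ^ 2 * {u | u ∈ U ∧ bas u ∉ al}.ncard ≤
      4 * q * U.ncard + 3 * k * q * bd (dbl O) U)
    (s : Bool) (A S : Finset V) (hAS : S.card < A.card) [DecidablePred fun v => v ∈ al] :
    k ^ 2 * A.card ≤ k ^ 2 * (A.filter fun x => x ∈ al).card +
      (8 * q * A.card + 6 * k * q * (E1 O s A S).card) := by
  classical
  have h1 := hzone (UU s A S : Set (V ⊕ V))
  have h2 : (A.filter fun x => x ∉ al).card ≤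
      {u | u ∈ (UU s A S : Set (V ⊕ V)) ∧ bas u ∉ al}.ncard := by
    have h3 : (((A.filter fun x => x ∉ al).image (ct s) : Finset (V ⊕ V)) : Set (V ⊕ V)) ⊆
        {u | u ∈ (UU s A S : Set (V ⊕ V)) ∧ bas u ∉ al} := by
      intro u hu
      rw [Finset.mem_coe, Finset.mem_image] at hu
      obtain ⟨x, hx, rfl⟩ := hu
      rw [Finset.mem_filter] at hx
      refine ⟨?_, ?_⟩
      · rw [Finset.mem_coe, mem_UU_ct]; exact hx.1
      · rw [bas_ct]; exact hx.2
    have h4 := Set.ncard_le_ncard h3 (Set.toFinite _)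
    rw [Set.ncard_coe_finset, Finset.card_image_of_injective _ (ct_inj s)] at h4
    exact h4
  have h5 : (UU s A S : Set (V ⊕ V)).ncard ≤ 2 * A.card := by
    rw [Set.ncard_coe_finset]
    have := card_UU_le s A S
    omega
  have h6 := bd_le O s A S
  have h7 := (viol_num O k hreg s A S hAS).2
  have h8 : bd (dbl O) (UU s A S : Set (V ⊕ V)) ≤ 2 * (E1 O s A S).card := by omega
  have h9 : (A.filter fun x => x ∈ al).card + (A.filter fun x => x ∉ al).card = A.card :=
    Finset.card_filter_add_card_filter_not _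
  calc k ^ 2 * A.card = k ^ 2 * (A.filter fun x => x ∈ al).card +
        k ^ 2 * (A.filter fun x => x ∉ al).card := by rw [← mul_add, h9]
    _ ≤ k ^ 2 * (A.filter fun x => x ∈ al).card +
        (4 * q * (UU s A S : Set (V ⊕ V)).ncard + 3 * k * q * bd (dbl O) (UU s A S)) :=
      Nat.add_le_add_left ((Nat.mul_le_mul_left _ h2).trans h1) _
    _ ≤ k ^ 2 * (A.filter fun x => x ∈ al).card +
        (4 * q * (2 * A.card) + 3 * k * q * (2 * (E1 O s A S).card)) :=
      Nat.add_le_add_left (Nat.add_le_add (Nat.mul_le_mul_left _ h5)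
        (Nat.mul_le_mul_left _ h8)) _
    _ = _ := by ring

/-- the weight of a Hall event -/
noncomputable def xH (O : V → V → Prop) (c b : ℕ) (s : Bool) (A S : Finset V) : ℝ :=
  Real.exp (-(((E1 O s A S).card : ℝ) / (4 * c) + (A.card : ℝ) / (4 * b)))

lemma hall_prob [DecidableEq V] {O : V → V → Prop} {al : Set V} {k q c b : ℕ} {τ1 τ2 : ℝ} (hk : 1 ≤ k)
    (hc : 1 ≤ c) (hb : 1 ≤ b) (hcb : 2 * c ≤ b) (h1 : 32 * q ≤ k ^ 2) (h2 : 12 * q * c ≤ k * b)
    (ht1 : τ1 ≤ 1 / (4 * c)) (ht2 : τ2 ≤ 1 / (4 * b))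
    (hreg : ∀ v, {w | O v w}.ncard = k ∧ {w | O w v}.ncard = k)
    (hzone : ∀ U : Set (V ⊕ V), k ^ 2 * {u | u ∈ U ∧ bas u ∉ al}.ncard ≤
      4 * q * U.ncard + 3 * k * q * bd (dbl O) U)
    (i : Fin c) (s : Bool) (A S : Finset V) (hAS : S.card < A.card) :
    (({ω : (V × V) ⊕ V → Fin c × Fin b |
      ∀ v ∈ WH O al s A S, ω v ∈ FH hcb i s v}.ncard : ℕ) : ℝ) ≤
      xH O c b s A S * Real.exp (-∑ v ∈ WH O al s A S, tau τ1 τ2 v) *
        (Fintype.card ((V × V) ⊕ V → Fin c × Fin b) : ℝ) := by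
  classical
  haveI : Nonempty (Fin c × Fin b) := ⟨(⟨0, hc⟩, ⟨0, hb⟩)⟩
  have hc' : (1 : ℝ) ≤ c := by exact_mod_cast hc
  have hb' : (1 : ℝ) ≤ b := by exact_mod_cast hb
  refine (cyl_le (WH O al s A S) (FH hcb i s) (tau (1 / (c : ℝ)) (1 / (b : ℝ))) ?_).trans ?_
  · rintro (e | x) _
    · simp only [FH, tau, Sum.elim_inl]
      rw [ratio_ne1 hc hb]
      exact one_sub_le c hc
    · simp only [FH, tau, Sum.elim_inr]
      rw [ratio_ne2 hc hb]
      exact one_sub_le b hb
  · refine mul_le_mul_of_nonneg_right ?_ (Nat.cast_nonneg _)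
    rw [sum_WH, sum_WH, xH, ← Real.exp_add, Real.exp_le_exp]
    have hz := num_zone hk hc hb h1 h2 (zone_num hreg hzone s A S hAS)
    have ha : ((A.filter fun x => x ∈ al).card : ℝ) ≤ A.card := by
      exact_mod_cast Finset.card_filter_le _ _
    have h3 : ((E1 O s A S).card : ℝ) * τ1 ≤ (E1 O s A S).card * (1 / (4 * c)) :=
      mul_le_mul_of_nonneg_left ht1 (Nat.cast_nonneg _)
    have h4 : ((A.filter fun x => x ∈ al).card : ℝ) * τ2 ≤ A.card * (1 / (4 * b)) :=
      (mul_le_mul_of_nonneg_left ht2 (Nat.cast_nonneg _)).trans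
        (mul_le_mul_of_nonneg_right ha (by positivity))
    have h5 : ((E1 O s A S).card : ℝ) / (2 * c) = 2 * ((E1 O s A S).card * (1 / (4 * c))) := by
      field_simp
      norm_num
    have h6 : (A.card : ℝ) / (2 * b) = 2 * (A.card * (1 / (4 * b))) := by
      field_simp
      norm_num
    have h7 : ((E1 O s A S).card : ℝ) / (4 * c) = (E1 O s A S).card * (1 / (4 * c)) := by
      field_simp
    have h8 : (A.card : ℝ) / (4 * b) = A.card * (1 / (4 * b)) := by
      field_simp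
    have h9 : ((E1 O s A S).card : ℝ) * (1 / c) = (E1 O s A S).card / c := by field_simp
    have h10 : ((A.filter fun x => x ∈ al).card : ℝ) * (1 / b) =
        (A.filter fun x => x ∈ al).card / b := by field_simp
    rw [h5, h6] at hz
    rw [h7, h8, h9, h10]
    linarith

lemma xH_le_half {O : V → V → Prop} {k c b s' : ℕ}
    (hc : 1 ≤ c) (hb : 1 ≤ b) (hk : 16 ≤ k)
    (h1 : 8 * (c : ℝ) * (12 * s' + 4 + 11 * Real.log k) ≤ k)
    (hreg : ∀ v, {w | O v w}.ncard = k ∧ {w | O w v}.ncard = k)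
    (s : Bool) (A S : Finset V) (hAS : S.card < A.card) : xH O c b s A S ≤ 1 / 2 := by
  have hc' : (1 : ℝ) ≤ c := by exact_mod_cast hc
  have hb' : (1 : ℝ) ≤ b := by exact_mod_cast hb
  have hk' : (16 : ℝ) ≤ k := by exact_mod_cast hk
  have hlog : 0 ≤ Real.log k := Real.log_nonneg (by linarith)
  have h2 : (k : ℝ) ≤ (E1 O s A S).card := by
    exact_mod_cast (viol_num O k hreg s A S hAS).1
  have h3 : 1 ≤ ((E1 O s A S).card : ℝ) / (4 * c) := by
    rw [le_div_iff₀ (by positivity)]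
    have hs : (0 : ℝ) ≤ s' := Nat.cast_nonneg _
    have : 8 * (c : ℝ) * 4 ≤ 8 * (c : ℝ) * (12 * s' + 4 + 11 * Real.log k) :=
      mul_le_mul_of_nonneg_left (by linarith) (by positivity)
    linarith
  have h4 : 0 ≤ (A.card : ℝ) / (4 * b) := by positivity
  unfold xH
  have h5 : Real.exp (-(((E1 O s A S).card : ℝ) / (4 * c) + (A.card : ℝ) / (4 * b))) ≤
      Real.exp (-1) := Real.exp_le_exp.2 (by linarith)
  have h6 : Real.exp (-1) ≤ 1 / 2 := by
    rw [Real.exp_neg, one_div]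
    apply inv_anti₀ (by norm_num)
    have := Real.add_one_le_exp (1 : ℝ)
    linarith
  exact h5.trans h6

lemma dbl_deg {O : V → V → Prop} {k : ℕ}
    (hreg : ∀ v, {w | O v w}.ncard = k ∧ {w | O w v}.ncard = k) (u : V ⊕ V) :
    ((dbl O).neighborSet u).ncard = k := by
  rcases u with x | y
  · rw [← (hreg x).1]
    have : (dbl O).neighborSet (Sum.inl x) = Sum.inr '' {w | O x w} := by
      ext v
      simp only [mem_neighborSet, Set.mem_image, Set.mem_setOf_eq]
      constructor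
      · rintro (⟨a, b, h1, h2, h3⟩ | ⟨a, b, h1, h2, h3⟩)
        · cases h1
          exact ⟨b, h3, h2.symm⟩
        · exact absurd h1 (by simp)
      · rintro ⟨w, hw, rfl⟩
        exact Or.inl ⟨x, w, rfl, rfl, hw⟩
    rw [this, Set.ncard_image_of_injective _ Sum.inr_injective]
  · rw [← (hreg y).2]
    have : (dbl O).neighborSet (Sum.inr y) = Sum.inl '' {w | O w y} := by
      ext v
      simp only [mem_neighborSet, Set.mem_image, Set.mem_setOf_eq]
      constructor
      · rintro (⟨a, b, h1, h2, h3⟩ | ⟨a, b, h1, h2, h3⟩)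
        · exact absurd h1 (by simp)
        · cases h1
          exact ⟨a, h3, h2.symm⟩
      · rintro ⟨w, hw, rfl⟩
        exact Or.inr ⟨w, y, rfl, rfl, hw⟩
    rw [this, Set.ncard_image_of_injective _ Sum.inl_injective]

lemma hall_sum (hCount : CountStmt) {O : V → V → Prop} {k c b s' m : ℕ}
    (hk : 16 ≤ k) (hc : 1 ≤ c) (hb : 1 ≤ b) (hm : 1 ≤ m)
    (h1 : 8 * (c : ℝ) * (12 * s' + 4 + 11 * Real.log k) ≤ k)
    (h2 : 4 * (b : ℝ) * Real.log k * (2 * (5 / 8 : ℝ) ^ s' + 3 / m) ≤ 1)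
    (hreg : ∀ v, {w | O v w}.ncard = k ∧ {w | O w v}.ncard = k)
    (hsp : Sparse (dbl O) k m) (u0 : Bool → V ⊕ V) (J1 : Finset (HIdx O c))
    (hJ : ∀ t ∈ J1, u0 t.1.1.2 ∈ UU t.1.1.2 t.1.2.1 t.1.2.2) :
    ∑ t ∈ J1, xH O c b t.1.1.2 t.1.2.1 t.1.2.2 ≤ 2 * c * Real.exp (-(k / (8 * c) : ℝ)) := by
  classical
  have hstep : ∀ t : HIdx O c, xH O c b t.1.1.2 t.1.2.1 t.1.2.2 ≤
      Real.exp (-(cw k s' m (UU t.1.1.2 t.1.2.1 t.1.2.2).card
        (bd (dbl O) (UU t.1.1.2 t.1.2.1 t.1.2.2 : Set (V ⊕ V))))) *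
        Real.exp (-(k / (8 * c) : ℝ)) := by
    intro t
    have ht := t.2.1
    have h3 := viol_num O k hreg t.1.1.2 t.1.2.1 t.1.2.2 ht
    have h4 := card_UU_le t.1.1.2 t.1.2.1 t.1.2.2
    have h5 := bd_le O t.1.1.2 t.1.2.1 t.1.2.2
    have h6 := num_cw (k := k) (c := c) (b := b) (m := m) (s := s')
      (u := (UU t.1.1.2 t.1.2.1 t.1.2.2).card)
      (β := bd (dbl O) (UU t.1.1.2 t.1.2.1 t.1.2.2 : Set (V ⊕ V)))
      (a := t.1.2.1.card) (b1 := (E1 O t.1.1.2 t.1.2.1 t.1.2.2).card)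
      hk hc hb hm h1 h2 h3.1 (by omega) (by omega)
    unfold xH
    rw [← Real.exp_add, Real.exp_le_exp]
    linarith
  have hfib : ∀ p : Fin c × Bool,
      ∑ t ∈ J1 with t.1.1 = p, xH O c b t.1.1.2 t.1.2.1 t.1.2.2 ≤
        Real.exp (-(k / (8 * c) : ℝ)) := by
    intro p
    have hinj : Set.InjOn (fun t : HIdx O c => UU t.1.1.2 t.1.2.1 t.1.2.2)
        (J1.filter fun t => t.1.1 = p : Finset (HIdx O c)) := by
      intro t ht t' ht' h
      rw [Finset.mem_coe, Finset.mem_filter] at ht ht'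
      have h3 : t.1.1 = t'.1.1 := ht.2.trans ht'.2.symm
      simp only [h3] at h
      have h4 := UU_inj _ h
      apply Subtype.ext
      apply Prod.ext h3
      exact Prod.ext h4.1 h4.2
    have h3 := hCount (V ⊕ V) (dbl O) k s' m hk hm (dbl_deg hreg) hsp (u0 p.2)
      ((J1.filter fun t => t.1.1 = p).image fun t : HIdx O c => UU t.1.1.2 t.1.2.1 t.1.2.2) (by
        intro U hU
        rw [Finset.mem_image] at hU
        obtain ⟨t, ht, rfl⟩ := hU
        rw [Finset.mem_filter] at ht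
        refine ⟨?_, t.2.2⟩
        have := hJ t ht.1
        rw [← ht.2]
        exact this)
    rw [Finset.sum_image hinj] at h3
    calc _ ≤ ∑ t ∈ J1 with t.1.1 = p,
          Real.exp (-(cw k s' m (UU t.1.1.2 t.1.2.1 t.1.2.2).card
            (bd (dbl O) (UU t.1.1.2 t.1.2.1 t.1.2.2 : Set (V ⊕ V))))) *
            Real.exp (-(k / (8 * c) : ℝ)) := Finset.sum_le_sum fun t _ => hstep t
      _ = (∑ t ∈ J1 with t.1.1 = p,
          Real.exp (-(cw k s' m (UU t.1.1.2 t.1.2.1 t.1.2.2).card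
            (bd (dbl O) (UU t.1.1.2 t.1.2.1 t.1.2.2 : Set (V ⊕ V)))))) *
            Real.exp (-(k / (8 * c) : ℝ)) := by rw [Finset.sum_mul]
      _ ≤ 1 * Real.exp (-(k / (8 * c) : ℝ)) :=
          mul_le_mul_of_nonneg_right h3 (Real.exp_pos _).le
      _ = _ := one_mul _
  rw [← Finset.sum_fiberwise J1 (fun t : HIdx O c => t.1.1)]
  calc _ ≤ ∑ _p : Fin c × Bool, Real.exp (-(k / (8 * c) : ℝ)) :=
        Finset.sum_le_sum fun p _ => hfib p
    _ = 2 * c * Real.exp (-(k / (8 * c) : ℝ)) := by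
      rw [Finset.sum_const, Finset.card_univ, Fintype.card_prod, Fintype.card_fin,
        Fintype.card_bool, nsmul_eq_mul]
      push_cast
      ring

end main

end Pool.Agent.LLG.H31
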