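import Pool.Agent.Helper22_LLG.Stmt

/-!
# LLG, module RLL, part A: counting lemmas
-/

set_option autoImplicit false

namespace Pool.Agent.LLG.H31

open SimpleGraph Pool.Agent.LAG Pool.Agent.LLG

/-! ### Cylinders -/

lemma card_cyl {I α : Type} [Fintype I] [DecidableEq I] [Fintype α] [Nonempty α]
    (W : Finset I) (F : I → Finset α) :
    (({ω : I → α | ∀ v ∈ W, ω v ∈ F v}.ncard : ℕ) : ℝ) =
      (∏ v ∈ W, ((F v).card : ℝ) / Fintype.card α) * (Fintype.card (I → α) : ℝ) := by
  classical
  have h1 : {ω : I → α | ∀ v ∈ W, ω v ∈ F v} =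
      (Fintype.piFinset (fun v => if v ∈ W then F v else Finset.univ) : Finset (I → α)) := by
    ext ω
    simp only [Set.mem_setOf_eq, Finset.mem_coe, Fintype.mem_piFinset]
    constructor
    · intro h v
      by_cases hv : v ∈ W
      · rw [if_pos hv]; exact h v hv
      · rw [if_neg hv]; exact Finset.mem_univ _
    · intro h v hv
      have := h v
      rw [if_pos hv] at this
      exact this
  rw [h1, Set.ncard_coe_finset, Fintype.card_piFinset]
  have hα : (Fintype.card α : ℝ) ≠ 0 := by
    exact_mod_cast Fintype.card_ne_zero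
  have h2 : (Fintype.card (I → α) : ℝ) = ∏ _v : I, (Fintype.card α : ℝ) := by
    rw [Fintype.card_fun, Finset.prod_const, Finset.card_univ]
    push_cast
    rfl
  have h3 : (∏ v ∈ W, ((F v).card : ℝ) / Fintype.card α) =
      ∏ v : I, (if v ∈ W then ((F v).card : ℝ) / Fintype.card α else 1) := by
    rw [Finset.prod_ite_mem, Finset.univ_inter]
  rw [h2, h3, ← Finset.prod_mul_distrib]
  push_cast
  refine Finset.prod_congr rfl fun v _ => ?_
  by_cases hv : v ∈ W
  · rw [if_pos hv, if_pos hv]
    field_simp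
  · rw [if_neg hv, if_neg hv, one_mul, Finset.card_univ]

lemma prod_le_exp {I : Type} (W : Finset I) (f g : I → ℝ) (h0 : ∀ v ∈ W, 0 ≤ f v)
    (h : ∀ v ∈ W, f v ≤ Real.exp (-g v)) : ∏ v ∈ W, f v ≤ Real.exp (-∑ v ∈ W, g v) := by
  rw [← Finset.sum_neg_distrib, Real.exp_sum]
  exact Finset.prod_le_prod h0 h

/-! ### Sides -/

variable {V : Type}

/-- the end of the arc on the side `s` -/
def tl (s : Bool) (e : V × V) : V := if s then e.1 else e.2
/-- the other end -/
def hd (s : Bool) (e : V × V) : V := if s then e.2 else e.1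
/-- the copy of the vertices on the side `s` -/
def ct (s : Bool) (x : V) : V ⊕ V := if s then Sum.inl x else Sum.inr x
/-- the other copy -/
def ch (s : Bool) (x : V) : V ⊕ V := if s then Sum.inr x else Sum.inl x
/-- the arc with given ends -/
def mk (s : Bool) (x y : V) : V × V := if s then (x, y) else (y, x)

@[simp] lemma tl_mk (s : Bool) (x y : V) : tl s (mk s x y) = x := by cases s <;> rfl
@[simp] lemma hd_mk (s : Bool) (x y : V) : hd s (mk s x y) = y := by cases s <;> rfl
@[simp] lemma mk_tl_hd (s : Bool) (e : V × V) : mk s (tl s e) (hd s e) = e := by cases s <;> rfl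
lemma ct_inj (s : Bool) : Function.Injective (ct s : V → V ⊕ V) := by
  intro x y h
  cases s
  · exact Sum.inr_injective h
  · exact Sum.inl_injective h
lemma ch_inj (s : Bool) : Function.Injective (ch s : V → V ⊕ V) := by
  intro x y h
  cases s
  · exact Sum.inl_injective h
  · exact Sum.inr_injective h
lemma ct_ne_ch (s : Bool) (x y : V) : ct s x ≠ ch s y := by cases s <;> simp [ct, ch]
lemma ct_or_ch (s : Bool) (u : V ⊕ V) : (∃ x, u = ct s x) ∨ ∃ x, u = ch s x := by
  cases s <;> cases u <;> simp [ct, ch]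
@[simp] lemma bas_ct (s : Bool) (x : V) : bas (ct s x) = x := by cases s <;> rfl

lemma dbl_ct_ch (O : V → V → Prop) (s : Bool) (x y : V) :
    (dbl O).Adj (ct s x) (ch s y) ↔ O (mk s x y).1 (mk s x y).2 := by
  cases s
  · constructor
    · rintro (⟨a, b, h1, h2, h3⟩ | ⟨a, b, h1, h2, h3⟩)
      · exact absurd h1 (by simp [ct])
      · cases h1; cases h2; exact h3
    · intro h
      exact Or.inr ⟨y, x, rfl, rfl, h⟩
  · constructor
    · rintro (⟨a, b, h1, h2, h3⟩ | ⟨a, b, h1, h2, h3⟩)
      · cases h1; cases h2; exact h3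
      · exact absurd h1 (by simp [ct])
    · intro h
      exact Or.inl ⟨x, y, rfl, rfl, h⟩

lemma dbl_ct_ct (O : V → V → Prop) (s : Bool) (x y : V) : ¬ (dbl O).Adj (ct s x) (ct s y) := by
  cases s
  · rintro (⟨a, b, h1, h2, h3⟩ | ⟨a, b, h1, h2, h3⟩)
    · exact absurd h1 (by simp [ct])
    · exact absurd h2 (by simp [ct])
  · rintro (⟨a, b, h1, h2, h3⟩ | ⟨a, b, h1, h2, h3⟩)
    · exact absurd h2 (by simp [ct])
    · exact absurd h1 (by simp [ct])

lemma dbl_ch_ch (O : V → V → Prop) (s : Bool) (x y : V) : ¬ (dbl O).Adj (ch s x) (ch s y) := by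
  have h : ∀ z : V, ch s z = ct (!s) z := fun z => by cases s <;> rfl
  rw [h, h]
  exact dbl_ct_ct O (!s) x y

/-- the arcs from `A` to the complement of `S` -/
noncomputable def E1 [Fintype V] (O : V → V → Prop) (s : Bool) (A S : Finset V) :
    Finset (V × V) :=
  open Classical in
  Finset.univ.filter fun e => tl s e ∈ A ∧ hd s e ∉ S ∧ O e.1 e.2

/-- the arcs from the complement of `A` to `S` -/
noncomputable def E2 [Fintype V] (O : V → V → Prop) (s : Bool) (A S : Finset V) :
    Finset (V × V) :=
  open Classical in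
  Finset.univ.filter fun e => tl s e ∉ A ∧ hd s e ∈ S ∧ O e.1 e.2

/-- the arcs from `A` to `S` -/
noncomputable def E3 [Fintype V] (O : V → V → Prop) (s : Bool) (A S : Finset V) :
    Finset (V × V) :=
  open Classical in
  Finset.univ.filter fun e => tl s e ∈ A ∧ hd s e ∈ S ∧ O e.1 e.2

/-- the set of vertices of the double cover -/
noncomputable def UU (s : Bool) (A S : Finset V) : Finset (V ⊕ V) :=
  open Classical in A.image (ct s) ∪ S.image (ch s)

lemma mem_UU_ct (s : Bool) (A S : Finset V) (x : V) : ct s x ∈ UU s A S ↔ x ∈ A := by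
  classical
  simp only [UU, Finset.mem_union, Finset.mem_image]
  constructor
  · rintro (⟨y, hy, h⟩ | ⟨y, hy, h⟩)
    · rwa [← ct_inj s h]
    · exact absurd h.symm (ct_ne_ch s x y)
  · intro h
    exact Or.inl ⟨x, h, rfl⟩

lemma mem_UU_ch (s : Bool) (A S : Finset V) (x : V) : ch s x ∈ UU s A S ↔ x ∈ S := by
  classical
  simp only [UU, Finset.mem_union, Finset.mem_image]
  constructor
  · rintro (⟨y, hy, h⟩ | ⟨y, hy, h⟩)
    · exact absurd h (ct_ne_ch s y x)
    · rwa [← ch_inj s h]
  · intro h
    exact Or.inr ⟨x, h, rfl⟩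

lemma card_UU_le (s : Bool) (A S : Finset V) : (UU s A S).card ≤ A.card + S.card := by
  classical
  unfold UU
  exact (Finset.card_union_le _ _).trans (add_le_add Finset.card_image_le Finset.card_image_le)

lemma UU_inj (s : Bool) {A S A' S' : Finset V} (h : UU s A S = UU s A' S') : A = A' ∧ S = S' := by
  constructor
  · ext x
    rw [← mem_UU_ct s A S, h, mem_UU_ct]
  · ext x
    rw [← mem_UU_ch s A S, h, mem_UU_ch]

lemma card_E13 [Fintype V] (O : V → V → Prop) (k : ℕ)
    (hreg : ∀ v, {w | O v w}.ncard = k ∧ {w | O w v}.ncard = k) (s : Bool) (A S : Finset V) :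
    (E1 O s A S).card + (E3 O s A S).card = k * A.card := by
  classical
  have h1 : ∀ x : V, (Finset.univ.filter fun e : V × V => tl s e = x ∧ O e.1 e.2).card = k := by
    intro x
    have h2 : (Finset.univ.filter fun e : V × V => tl s e = x ∧ O e.1 e.2) =
        (Finset.univ.filter fun y : V => O (mk s x y).1 (mk s x y).2).image (mk s x) := by
      ext e
      simp only [Finset.mem_filter, Finset.mem_univ, true_and, Finset.mem_image]
      constructor
      · rintro ⟨rfl, h⟩
        exact ⟨hd s e, by rw [mk_tl_hd]; exact h, mk_tl_hd s e⟩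
      · rintro ⟨y, hy, rfl⟩
        exact ⟨tl_mk s x y, hy⟩
    rw [h2, Finset.card_image_of_injective _ (fun a b h => by
      have := congrArg (hd s) h
      simpa using this)]
    have h3 := hreg x
    cases s
    · rw [← h3.2, ← Set.ncard_coe_finset]
      congr 1
      ext y
      simp [mk]
    · rw [← h3.1, ← Set.ncard_coe_finset]
      congr 1
      ext y
      simp [mk]
  have h4 : (E1 O s A S).card + (E3 O s A S).card =
      (Finset.univ.filter fun e : V × V => tl s e ∈ A ∧ O e.1 e.2).card := by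
    rw [← Finset.card_union_of_disjoint]
    · congr 1
      ext e
      simp only [E1, E3, Finset.mem_union, Finset.mem_filter, Finset.mem_univ, true_and]
      tauto
    · rw [Finset.disjoint_left]
      intro e he he'
      simp only [E1, E3, Finset.mem_filter, Finset.mem_univ, true_and] at he he'
      exact he.2.1 he'.2.1
  have h5 : (Finset.univ.filter fun e : V × V => tl s e ∈ A ∧ O e.1 e.2) =
      A.biUnion fun x => Finset.univ.filter fun e : V × V => tl s e = x ∧ O e.1 e.2 := by
    ext e
    simp only [Finset.mem_filter, Finset.mem_univ, true_and, Finset.mem_biUnion]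
    constructor
    · rintro ⟨h, h'⟩
      exact ⟨_, h, rfl, h'⟩
    · rintro ⟨x, hx, rfl, h'⟩
      exact ⟨hx, h'⟩
  rw [h4, h5, Finset.card_biUnion]
  · rw [Finset.sum_congr rfl fun x _ => h1 x, Finset.sum_const, smul_eq_mul, mul_comm]
  · intro x _ y _ hxy
    rw [Function.onFun, Finset.disjoint_left]
    intro e he he'
    simp only [Finset.mem_filter, Finset.mem_univ, true_and] at he he'
    exact hxy (he.1.symm.trans he'.1)

lemma card_E23 [Fintype V] (O : V → V → Prop) (k : ℕ)
    (hreg : ∀ v, {w | O v w}.ncard = k ∧ {w | O w v}.ncard = k) (s : Bool) (A S : Finset V) :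
    (E2 O s A S).card + (E3 O s A S).card = k * S.card := by
  classical
  have h := card_E13 O k hreg (!s) S A
  have h1 : E1 O (!s) S A = E2 O s A S := by
    ext e
    simp only [E1, E2, Finset.mem_filter, Finset.mem_univ, true_and]
    cases s <;> simp only [tl, hd, Bool.not_false, Bool.not_true, if_true, if_false,
      Bool.false_eq_true] <;> tauto
  have h2 : E3 O (!s) S A = E3 O s A S := by
    ext e
    simp only [E3, Finset.mem_filter, Finset.mem_univ, true_and]
    cases s <;> simp only [tl, hd, Bool.not_false, Bool.not_true, if_true, if_false,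
      Bool.false_eq_true] <;> tauto
  rwa [h1, h2] at h

/-- the numbers of a violator -/
lemma viol_num [Fintype V] (O : V → V → Prop) (k : ℕ)
    (hreg : ∀ v, {w | O v w}.ncard = k ∧ {w | O w v}.ncard = k) (s : Bool) (A S : Finset V)
    (hAS : S.card < A.card) :
    k ≤ (E1 O s A S).card ∧ (E2 O s A S).card ≤ (E1 O s A S).card := by
  have h1 := card_E13 O k hreg s A S
  have h2 := card_E23 O k hreg s A S
  have h3 : k * (S.card + 1) ≤ k * A.card := Nat.mul_le_mul_left k hAS
  rw [mul_add, mul_one] at h3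
  omega

lemma bd_le [Fintype V] (O : V → V → Prop) (s : Bool) (A S : Finset V) :
    bd (dbl O) (UU s A S : Set (V ⊕ V)) ≤ (E1 O s A S).card + (E2 O s A S).card := by
  classical
  unfold bd
  have h1 : {e : (V ⊕ V) × (V ⊕ V) | e.1 ∈ (UU s A S : Set (V ⊕ V)) ∧
      e.2 ∉ (UU s A S : Set (V ⊕ V)) ∧ (dbl O).Adj e.1 e.2} ⊆
      (((E1 O s A S).image fun e => (ct s (tl s e), ch s (hd s e))) ∪
        ((E2 O s A S).image fun e => (ch s (hd s e), ct s (tl s e))) :
          Finset ((V ⊕ V) × (V ⊕ V))) := by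
    rintro ⟨u, v⟩ ⟨hu, hv, hadj⟩
    simp only [Finset.mem_coe] at hu hv
    simp only [Finset.coe_union, Finset.coe_image, Set.mem_union, Set.mem_image, Finset.mem_coe]
    rcases ct_or_ch s u with ⟨x, rfl⟩ | ⟨x, rfl⟩
    · rcases ct_or_ch s v with ⟨y, rfl⟩ | ⟨y, rfl⟩
      · exact absurd hadj (dbl_ct_ct O s x y)
      · left
        refine ⟨mk s x y, ?_, by simp⟩
        simp only [E1, Finset.mem_filter, Finset.mem_univ, true_and, tl_mk, hd_mk]
        exact ⟨(mem_UU_ct s A S x).1 hu, fun h => hv ((mem_UU_ch s A S y).2 h),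
          (dbl_ct_ch O s x y).1 hadj⟩
    · rcases ct_or_ch s v with ⟨y, rfl⟩ | ⟨y, rfl⟩
      · right
        refine ⟨mk s y x, ?_, by simp⟩
        simp only [E2, Finset.mem_filter, Finset.mem_univ, true_and, tl_mk, hd_mk]
        exact ⟨fun h => hv ((mem_UU_ct s A S y).2 h), (mem_UU_ch s A S x).1 hu,
          (dbl_ct_ch O s y x).1 hadj.symm⟩
      · exact absurd hadj (dbl_ch_ch O s x y)
  refine (Set.ncard_le_ncard h1 (Finset.finite_toSet _)).trans ?_
  rw [Set.ncard_coe_finset]
  exact (Finset.card_union_le _ _).trans (add_le_add Finset.card_image_le Finset.card_image_le)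

end Pool.Agent.LLG.H31
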