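import Pool.Agent.Helper31_LLG.RllA

/-!
# LLG, module RLL, part B: minimal violators and numbers
-/

set_option autoImplicit false

namespace Pool.Agent.LLG.H31

open SimpleGraph Pool.Agent.LAG Pool.Agent.LLG

variable {V : Type}

/-- the neighbourhood of `A` in `E` -/
noncomputable def NN [Fintype V] (E : V × V → Prop) (s : Bool) (A : Finset V) : Finset V :=
  open Classical in Finset.univ.filter fun y => ∃ x ∈ A, E (mk s x y)

lemma mem_NN [Fintype V] (E : V × V → Prop) (s : Bool) (A : Finset V) (y : V) :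
    y ∈ NN E s A ↔ ∃ x ∈ A, E (mk s x y) := by
  classical
  simp [NN]

/-- a minimal violator of Hall's condition is connected -/
lemma violator [Fintype V] (O : V → V → Prop) (E : V × V → Prop) (hE : ∀ e, E e → O e.1 e.2)
    (s : Bool) (P : V → Prop)
    (h : ∃ A : Finset V, (∀ x ∈ A, P x) ∧ (NN E s A).card < A.card) :
    ∃ A S : Finset V, (∀ x ∈ A, P x) ∧ S.card < A.card ∧
      (∀ x ∈ A, ∀ y, y ∉ S → ¬ E (mk s x y)) ∧
      ((dbl O).induce (UU s A S : Set (V ⊕ V))).Connected := by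
  classical
  obtain ⟨A, ⟨hA1, hA2⟩, hmin⟩ := exists_minimal_of_wellFoundedLT
    (fun A : Finset V => (∀ x ∈ A, P x) ∧ (NN E s A).card < A.card) h
  set S := NN E s A with hS
  refine ⟨A, S, hA1, hA2, ?_, ?_⟩
  · intro x hx y hy hxy
    exact hy ((mem_NN E s A y).2 ⟨x, hx, hxy⟩)
  have hmin' : ∀ A' : Finset V, A' ⊆ A → A' ≠ A → A'.card ≤ (NN E s A').card := by
    intro A' hA' hne
    by_contra hcon
    push Not at hcon
    have h1 := hmin ⟨fun x hx => hA1 x (hA' hx), hcon⟩ hA'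
    exact hne (Finset.Subset.antisymm hA' h1)
  have hne : A.Nonempty := Finset.card_pos.1 (lt_of_le_of_lt (Nat.zero_le _) hA2)
  obtain ⟨x0, hx0⟩ := hne
  have h0 : ct s x0 ∈ (UU s A S : Set (V ⊕ V)) := by
    rw [Finset.mem_coe, mem_UU_ct]; exact hx0
  set G := (dbl O).induce (UU s A S : Set (V ⊕ V)) with hG
  let Rch : V ⊕ V → Prop := fun u =>
    ∃ hu : u ∈ (UU s A S : Set (V ⊕ V)), G.Reachable ⟨ct s x0, h0⟩ ⟨u, hu⟩
  have hstep : ∀ u v, Rch u → v ∈ (UU s A S : Set (V ⊕ V)) → (dbl O).Adj u v → Rch v := by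
    rintro u v ⟨hu, hr⟩ hv hadj
    refine ⟨hv, hr.trans (SimpleGraph.Adj.reachable ?_)⟩
    exact hadj
  set A1 := A.filter fun x => Rch (ct s x) with hA1'
  have hx01 : x0 ∈ A1 := by
    rw [hA1', Finset.mem_filter]
    exact ⟨hx0, h0, Reachable.refl _⟩
  have hAll : A1 = A := by
    by_contra hcon
    set A2 := A.filter fun x => ¬ Rch (ct s x) with hA2'
    have hsub1 : A1 ⊆ A := Finset.filter_subset _ _
    have hsub2 : A2 ⊆ A := Finset.filter_subset _ _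
    have hne2 : A2 ≠ A := by
      intro h
      have : x0 ∈ A2 := by rw [h]; exact hx0
      rw [hA2', Finset.mem_filter] at this
      rw [hA1', Finset.mem_filter] at hx01
      exact this.2 hx01.2
    have h1 := hmin' A1 hsub1 hcon
    have h2 := hmin' A2 hsub2 hne2
    have h3 : A1.card + A2.card = A.card := by
      rw [hA1', hA2']
      exact Finset.card_filter_add_card_filter_not _
    have hin : ∀ A' : Finset V, A' ⊆ A → ∀ y ∈ NN E s A', y ∈ S := by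
      intro A' hA' y hy
      rw [mem_NN] at hy
      obtain ⟨x, hx, hxy⟩ := hy
      exact (mem_NN E s A y).2 ⟨x, hA' hx, hxy⟩
    have hdis : Disjoint (NN E s A1) (NN E s A2) := by
      rw [Finset.disjoint_left]
      intro y hy1 hy2
      have hyS : y ∈ S := hin A1 hsub1 y hy1
      rw [mem_NN] at hy1 hy2
      obtain ⟨x1, hx1, hxy1⟩ := hy1
      obtain ⟨x2, hx2, hxy2⟩ := hy2
      rw [hA1', Finset.mem_filter] at hx1
      rw [hA2', Finset.mem_filter] at hx2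
      have h4 : Rch (ch s y) := by
        refine hstep _ _ hx1.2 ?_ ((dbl_ct_ch O s x1 y).2 (hE _ hxy1))
        rw [Finset.mem_coe, mem_UU_ch]; exact hyS
      apply hx2.2
      refine hstep _ _ h4 ?_ ((dbl_ct_ch O s x2 y).2 (hE _ hxy2)).symm
      rw [Finset.mem_coe, mem_UU_ct]; exact hx2.1
    have h5 : (NN E s A1).card + (NN E s A2).card ≤ S.card := by
      rw [← Finset.card_union_of_disjoint hdis]
      refine Finset.card_le_card ?_
      intro y hy
      rcases Finset.mem_union.1 hy with hy | hy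
      · exact hin A1 hsub1 y hy
      · exact hin A2 hsub2 y hy
    omega
  have hRA : ∀ x ∈ A, Rch (ct s x) := by
    intro x hx
    rw [← hAll, hA1', Finset.mem_filter] at hx
    exact hx.2
  rw [SimpleGraph.connected_iff_exists_forall_reachable]
  refine ⟨⟨ct s x0, h0⟩, ?_⟩
  rintro ⟨u, hu⟩
  rcases ct_or_ch s u with ⟨x, rfl⟩ | ⟨y, rfl⟩
  · have hx : x ∈ A := by rwa [Finset.mem_coe, mem_UU_ct] at hu
    obtain ⟨_, h⟩ := hRA x hx
    exact h
  · have hy : y ∈ S := by rwa [Finset.mem_coe, mem_UU_ch] at hu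
    rw [hS, mem_NN] at hy
    obtain ⟨x, hx, hxy⟩ := hy
    obtain ⟨_, h⟩ := hstep _ _ (hRA x hx) hu ((dbl_ct_ch O s x y).2 (hE _ hxy))
    exact h

/-! ### Numbers -/

lemma num_zone {k c b q a a' b1 : ℕ} (hk : 1 ≤ k) (hc : 1 ≤ c) (hb : 1 ≤ b)
    (h1 : 32 * q ≤ k ^ 2) (h2 : 12 * q * c ≤ k * b)
    (hz : k ^ 2 * a ≤ k ^ 2 * a' + (8 * q * a + 6 * k * q * b1)) :
    (b1 : ℝ) / (2 * c) + a / (2 * b) ≤ b1 / c + a' / b := by
  have hk' : (1 : ℝ) ≤ k := by exact_mod_cast hk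
  have hc' : (1 : ℝ) ≤ c := by exact_mod_cast hc
  have hb' : (1 : ℝ) ≤ b := by exact_mod_cast hb
  have h1' : 32 * (q : ℝ) ≤ k ^ 2 := by exact_mod_cast h1
  have h2' : 12 * (q : ℝ) * c ≤ k * b := by exact_mod_cast h2
  have hz' : (k : ℝ) ^ 2 * a ≤ k ^ 2 * a' + (8 * q * a + 6 * k * q * b1) := by exact_mod_cast hz
  have ha : (0 : ℝ) ≤ a := Nat.cast_nonneg _
  have hb1 : (0 : ℝ) ≤ b1 := Nat.cast_nonneg _
  have hq : (0 : ℝ) ≤ q := Nat.cast_nonneg _
  -- (3/4) a ≤ a' + 6 q b1 / k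
  have h3 : 3 / 4 * (a : ℝ) ≤ a' + 6 * q * b1 / k := by
    have h4 : (k : ℝ) ^ 2 * (3 / 4 * a) ≤ k ^ 2 * (a' + 6 * q * b1 / k) := by
      have h5 : (k : ℝ) ^ 2 * (a' + 6 * q * b1 / k) = k ^ 2 * a' + 6 * k * q * b1 := by
        field_simp
      rw [h5]
      nlinarith [mul_le_mul_of_nonneg_right h1' ha]
    exact le_of_mul_le_mul_left h4 (by positivity)
  -- 6 q b1 / (k b) ≤ b1 / (2 c)
  have h6 : 6 * (q : ℝ) * b1 / k / b ≤ b1 / (2 * c) := by
    rw [div_div, div_le_div_iff₀ (by positivity) (by positivity)]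
    nlinarith [mul_le_mul_of_nonneg_right h2' hb1]
  have h7 : (3 / 4 * (a : ℝ)) / b ≤ a' / b + 6 * q * b1 / k / b := by
    rw [← add_div]
    exact div_le_div_of_nonneg_right h3 (by linarith)
  have h8 : (a : ℝ) / (2 * b) ≤ (3 / 4 * (a : ℝ)) / b := by
    rw [div_le_div_iff₀ (by positivity) (by positivity)]
    nlinarith [mul_nonneg ha (le_trans zero_le_one hb')]
  have h9 : (b1 : ℝ) / c = b1 / (2 * c) + b1 / (2 * c) := by
    field_simp
    ring
  rw [h9]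
  linarith

lemma num_cw {k c b m s u β a b1 : ℕ} (hk : 16 ≤ k) (hc : 1 ≤ c) (hb : 1 ≤ b) (hm : 1 ≤ m)
    (h1 : 8 * (c : ℝ) * (12 * s + 4 + 11 * Real.log k) ≤ k)
    (h2 : 4 * (b : ℝ) * Real.log k * (2 * (5 / 8 : ℝ) ^ s + 3 / m) ≤ 1)
    (hkb : k ≤ b1) (hu : u ≤ 2 * a) (hβ : β ≤ 2 * b1) :
    cw k s m u β + k / (8 * c) ≤ b1 / (4 * c) + a / (4 * b) := by
  have hk' : (16 : ℝ) ≤ k := by exact_mod_cast hk
  have hc' : (1 : ℝ) ≤ c := by exact_mod_cast hc
  have hb' : (1 : ℝ) ≤ b := by exact_mod_cast hb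
  have hm' : (1 : ℝ) ≤ m := by exact_mod_cast hm
  have hkb' : (k : ℝ) ≤ b1 := by exact_mod_cast hkb
  have hu' : (u : ℝ) ≤ 2 * a := by exact_mod_cast hu
  have hβ' : (β : ℝ) ≤ 2 * b1 := by exact_mod_cast hβ
  have hlog : 0 ≤ Real.log k := Real.log_nonneg (by linarith)
  have ha : (0 : ℝ) ≤ a := Nat.cast_nonneg _
  have hb1 : (0 : ℝ) ≤ b1 := Nat.cast_nonneg _
  have hs : (0 : ℝ) ≤ s := Nat.cast_nonneg _
  have hu0 : (0 : ℝ) ≤ u := Nat.cast_nonneg _
  have hβ0 : (0 : ℝ) ≤ β := Nat.cast_nonneg _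
  have hkpos : (0 : ℝ) < k := by linarith
  have e1 : (6 * (s : ℝ) + 2) * β / k ≤ (12 * s + 4) * (b1 / k) := by
    rw [← mul_div_assoc]
    apply div_le_div_of_nonneg_right _ hkpos.le
    nlinarith
  have e2 : (5 / 8 : ℝ) ^ s * u ≤ 2 * (5 / 8 : ℝ) ^ s * a := by
    have : (0 : ℝ) ≤ (5 / 8 : ℝ) ^ s := by positivity
    nlinarith
  have e3 : 4 / 3 * ((u : ℝ) / m) ≤ 3 / m * a := by
    have : (u : ℝ) / m ≤ 2 * a / m := div_le_div_of_nonneg_right hu' (by linarith)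
    have h3 : 4 / 3 * (2 * a / m) ≤ 3 / m * (a : ℝ) := by
      rw [div_mul_div_comm, div_mul_eq_mul_div, div_le_div_iff₀ (by positivity) (by positivity)]
      nlinarith [mul_nonneg ha (le_trans zero_le_one hm')]
    linarith
  have e4 : 4 / 3 * (4 * (β : ℝ) / k) ≤ 11 * (b1 / k) := by
    have : 4 * (β : ℝ) / k ≤ 8 * (b1 / k) := by
      rw [← mul_div_assoc]
      apply div_le_div_of_nonneg_right _ hkpos.le
      linarith
    have h3 : 0 ≤ (b1 : ℝ) / k := by positivity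
    linarith
  have e5 : cw k s m u β ≤ (12 * s + 4 + 11 * Real.log k) * (b1 / k) +
      Real.log k * (2 * (5 / 8 : ℝ) ^ s + 3 / m) * a := by
    unfold cw
    have : Real.log k * ((5 / 8 : ℝ) ^ s * u + 4 / 3 * ((u : ℝ) / m + 4 * β / k)) ≤
        Real.log k * (2 * (5 / 8 : ℝ) ^ s * a + (3 / m * a + 11 * (b1 / k))) := by
      apply mul_le_mul_of_nonneg_left _ hlog
      linarith
    nlinarith
  have e6 : (12 * s + 4 + 11 * Real.log k) * ((b1 : ℝ) / k) ≤ b1 / (8 * c) := by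
    rw [← mul_div_assoc, div_le_div_iff₀ (by positivity) (by positivity)]
    nlinarith [mul_le_mul_of_nonneg_right h1 hb1]
  have e7 : Real.log k * (2 * (5 / 8 : ℝ) ^ s + 3 / m) * (a : ℝ) ≤ a / (4 * b) := by
    rw [le_div_iff₀ (by positivity)]
    nlinarith [mul_le_mul_of_nonneg_right h2 ha]
  have e8 : (k : ℝ) / (8 * c) ≤ b1 / (8 * c) :=
    div_le_div_of_nonneg_right hkb' (by positivity)
  have e9 : (b1 : ℝ) / (4 * c) = b1 / (8 * c) + b1 / (8 * c) := by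
    field_simp
    ring
  rw [e9]
  linarith

lemma one_sub_le (n : ℕ) (_hn : 1 ≤ n) : (1 : ℝ) - 1 / n ≤ Real.exp (-(1 / n)) := by
  have := Real.add_one_le_exp (-(1 / (n : ℝ)))
  linarith

lemma half_le_exp : (1 : ℝ) / 2 ≤ Real.exp (-(1 / 2)) := by
  have := Real.add_one_le_exp (-(1 / 2 : ℝ))
  linarith

end Pool.Agent.LLG.H31
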