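import Pool.Agent.Helper31_LLG.RllB

/-!
# LLG, module RLL, part C: the events
-/

set_option autoImplicit false

namespace Pool.Agent.LLG.H31

open SimpleGraph Pool.Agent.LAG Pool.Agent.LLG

/-! ### Codes -/

/-- codes of the labels -/
def code {c b : ℕ} (h : 2 * c ≤ b) (i : Fin c) (s : Bool) : Fin b :=
  ⟨2 * i.val + (if s then 0 else 1), by have := i.2; split_ifs <;> omega⟩

/-- decoding -/
def dec {b : ℕ} (c : ℕ) (x : Fin b) : Option (Fin c × Bool) :=
  if h : x.val < 2 * c then some (⟨x.val / 2, by omega⟩, decide (x.val % 2 = 0)) else none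

lemma dec_eq {c b : ℕ} (h : 2 * c ≤ b) (x : Fin b) (i : Fin c) (s : Bool) :
    dec c x = some (i, s) ↔ x = code h i s := by
  unfold dec code
  constructor
  · intro h1
    split_ifs at h1 with h2
    simp only [Option.some.injEq, Prod.mk.injEq] at h1
    obtain ⟨h3, h4⟩ := h1
    have h5 : x.val / 2 = i.val := congrArg Fin.val h3
    ext
    cases s
    · have h6 : ¬ (x.val % 2 = 0) := by simpa using h4
      simp only [Bool.false_eq_true, if_false]
      omega
    · have h6 : x.val % 2 = 0 := by simpa using h4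
      simp only [if_true]
      omega
  · intro h1
    have h2 : x.val = 2 * i.val + (if s then 0 else 1) := congrArg Fin.val h1
    have hi := i.2
    have h3 : x.val < 2 * c := by
      rw [h2]; split_ifs <;> omega
    rw [dif_pos h3]
    simp only [Option.some.injEq, Prod.mk.injEq]
    constructor
    · ext
      simp only
      rw [h2]; split_ifs <;> omega
    · cases s
      · simp only [Bool.false_eq_true, if_false] at h2
        rw [decide_eq_false_iff_not]
        omega
      · simp only [if_true] at h2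
        rw [decide_eq_true_eq]
        omega

lemma dec_none {c b : ℕ} (x : Fin b) : dec c x = none ↔ ¬ x.val < 2 * c := by
  unfold dec
  split_ifs with h
  · simp [h]
  · simp [h]

/-! ### Ratios -/

section ratios

variable {c b : ℕ}

lemma card_filter_fst (p : Fin c → Prop) [DecidablePred p] :
    (Finset.univ.filter fun a : Fin c × Fin b => p a.1).card =
      (Finset.univ.filter p).card * b := by
  have h : (Finset.univ.filter fun a : Fin c × Fin b => p a.1) =
      (Finset.univ.filter p) ×ˢ (Finset.univ : Finset (Fin b)) := by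
    ext a
    simp
  rw [h, Finset.card_product, Finset.card_univ, Fintype.card_fin]

lemma card_filter_snd (p : Fin b → Prop) [DecidablePred p] :
    (Finset.univ.filter fun a : Fin c × Fin b => p a.2).card =
      c * (Finset.univ.filter p).card := by
  have h : (Finset.univ.filter fun a : Fin c × Fin b => p a.2) =
      (Finset.univ : Finset (Fin c)) ×ˢ (Finset.univ.filter p) := by
    ext a
    simp
  rw [h, Finset.card_product, Finset.card_univ, Fintype.card_fin]

lemma card_ab : (Fintype.card (Fin c × Fin b) : ℝ) = c * b := by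
  rw [Fintype.card_prod, Fintype.card_fin, Fintype.card_fin]
  push_cast
  rfl

lemma ratio_ne1 (hc : 1 ≤ c) (hb : 1 ≤ b) (i : Fin c) :
    ((Finset.univ.filter fun a : Fin c × Fin b => a.1 ≠ i).card : ℝ) /
      Fintype.card (Fin c × Fin b) = 1 - 1 / c := by
  have hc' : (1 : ℝ) ≤ c := by exact_mod_cast hc
  have hb' : (1 : ℝ) ≤ b := by exact_mod_cast hb
  rw [card_ab, card_filter_fst (fun x => x ≠ i), Finset.filter_ne', Finset.card_erase_of_mem
    (Finset.mem_univ _), Finset.card_univ, Fintype.card_fin, Nat.cast_mul, Nat.cast_sub hc]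
  push_cast
  field_simp

lemma ratio_ne2 (hc : 1 ≤ c) (hb : 1 ≤ b) (x : Fin b) :
    ((Finset.univ.filter fun a : Fin c × Fin b => a.2 ≠ x).card : ℝ) /
      Fintype.card (Fin c × Fin b) = 1 - 1 / b := by
  have hc' : (1 : ℝ) ≤ c := by exact_mod_cast hc
  have hb' : (1 : ℝ) ≤ b := by exact_mod_cast hb
  rw [card_ab, card_filter_snd (fun y => y ≠ x), Finset.filter_ne', Finset.card_erase_of_mem
    (Finset.mem_univ _), Finset.card_univ, Fintype.card_fin, Nat.cast_mul, Nat.cast_sub hb]
  push_cast
  field_simp

lemma ratio_lt (hc : 1 ≤ c) (hb : 1 ≤ b) :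
    ((Finset.univ.filter fun a : Fin c × Fin b => a.2.val < 2 * c).card : ℝ) /
      Fintype.card (Fin c × Fin b) ≤ 2 * c / b := by
  have hc' : (1 : ℝ) ≤ c := by exact_mod_cast hc
  have hb' : (1 : ℝ) ≤ b := by exact_mod_cast hb
  have h1 : (Finset.univ.filter fun x : Fin b => x.val < 2 * c).card ≤ 2 * c := by
    have h2 := Finset.card_le_card_of_injOn (s := Finset.univ.filter fun x : Fin b => x.val < 2 * c)
      (t := Finset.range (2 * c)) (fun x => x.val)
      (fun x hx => by simpa using hx) (fun x _ y _ h => Fin.ext h)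
    rwa [Finset.card_range] at h2
  rw [card_ab, card_filter_snd (fun x : Fin b => x.val < 2 * c), Nat.cast_mul,
    div_le_div_iff₀ (by positivity) (by positivity)]
  have h3 : (((Finset.univ.filter fun x : Fin b => x.val < 2 * c).card : ℕ) : ℝ) ≤ 2 * c := by
    exact_mod_cast h1
  have h4 : (0 : ℝ) ≤ c * b := by positivity
  nlinarith [mul_le_mul_of_nonneg_left h3 h4]

lemma ratio_host {σ T b : ℕ} (hσ : 1 ≤ σ) (hT : 1 ≤ T) (hb : 1 ≤ b) (t : ℕ) :
    ((Finset.univ.filter fun a : Fin (σ * T) × Fin b => a.1.val / σ = t).card : ℝ) /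
      Fintype.card (Fin (σ * T) × Fin b) ≤ 1 / T := by
  have hσ' : (1 : ℝ) ≤ σ := by exact_mod_cast hσ
  have hT' : (1 : ℝ) ≤ T := by exact_mod_cast hT
  have hb' : (1 : ℝ) ≤ b := by exact_mod_cast hb
  have h1 : (Finset.univ.filter fun x : Fin (σ * T) => x.val / σ = t).card ≤ σ := by
    have h2 := Finset.card_le_card_of_injOn
      (s := Finset.univ.filter fun x : Fin (σ * T) => x.val / σ = t)
      (t := Finset.Ico (t * σ) ((t + 1) * σ)) (fun x => x.val)
      (fun x hx => by
        have hx' : x.val / σ = t := by simpa using hx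
        rw [Finset.mem_coe, Finset.mem_Ico]
        rw [Nat.div_eq_iff (by omega)] at hx'
        constructor
        · exact hx'.1
        · have := hx'.2
          rw [add_mul, one_mul]
          show x.val < t * σ + σ
          omega) (fun x _ y _ h => Fin.ext h)
    rw [Nat.card_Ico, add_mul, one_mul, Nat.add_sub_cancel_left] at h2
    exact h2
  rw [card_ab, card_filter_fst (fun x : Fin (σ * T) => x.val / σ = t), Nat.cast_mul,
    div_le_div_iff₀ (by push_cast; positivity) (by positivity)]
  have h3 : (((Finset.univ.filter fun x : Fin (σ * T) => x.val / σ = t).card : ℕ) : ℝ) ≤ σ := by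
    exact_mod_cast h1
  push_cast
  have h4 : (0 : ℝ) ≤ b * T := by positivity
  nlinarith [mul_le_mul_of_nonneg_left h3 h4]

end ratios

/-! ### Probabilities -/

section prob

variable {V : Type} [Fintype V] {I α : Type} [Fintype I] [DecidableEq I] [Fintype α] [Nonempty α]

lemma cyl_le (W : Finset I) (F : I → Finset α) (g : I → ℝ)
    (h : ∀ v ∈ W, ((F v).card : ℝ) / Fintype.card α ≤ Real.exp (-g v)) :
    (({ω : I → α | ∀ v ∈ W, ω v ∈ F v}.ncard : ℕ) : ℝ) ≤
      Real.exp (-∑ v ∈ W, g v) * (Fintype.card (I → α) : ℝ) := by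
  rw [card_cyl]
  exact mul_le_mul_of_nonneg_right (prod_le_exp W _ g (fun v _ => by positivity) h)
    (Nat.cast_nonneg _)

lemma cyl_pow (W : Finset I) (F : I → Finset α) (r : ℝ)
    (h : ∀ v ∈ W, ((F v).card : ℝ) / Fintype.card α ≤ r) :
    (({ω : I → α | ∀ v ∈ W, ω v ∈ F v}.ncard : ℕ) : ℝ) ≤
      r ^ W.card * (Fintype.card (I → α) : ℝ) := by
  rw [card_cyl]
  refine mul_le_mul_of_nonneg_right ?_ (Nat.cast_nonneg _)
  rw [← Finset.prod_const]
  exact Finset.prod_le_prod (fun v _ => by positivity) h

end prob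

end Pool.Agent.LLG.H31
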